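import Pool.Agent.Helper91.SY.Goals

/-!
# Project SY (MP_126465_gt), packet SM: smooth dependence on the initial value
-/

set_option autoImplicit false

open Set Filter Topology
open scoped ContDiff NNReal

namespace Pool.Agent.Helper77.SY

open Pool.Agent.Helper91.SY

section

variable {E : Type} [NormedAddCommGroup E] [NormedSpace ℝ E]

theorem bdd_of_far [FiniteDimensional ℝ E] {X : E → E} {R : ℝ} {e : E} (hX : Continuous X)
    (he : ∀ x, R ≤ ‖x‖ → X x = e) : ∃ M : ℝ, 0 ≤ M ∧ ∀ x, ‖X x‖ ≤ M := by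
  have : ProperSpace E := FiniteDimensional.proper ℝ E
  obtain ⟨C, hC⟩ := (isCompact_closedBall (0 : E) R).exists_bound_of_continuousOn hX.continuousOn
  refine ⟨max (max C ‖e‖) 0, le_max_right _ _, fun x => ?_⟩
  by_cases hx : ‖x‖ ≤ R
  · exact (hC x (by simpa using hx)).trans ((le_max_left _ _).trans (le_max_left _ _))
  · rw [he x (le_of_lt (not_le.1 hx))]
    exact (le_max_right _ _).trans (le_max_left _ _)

theorem lip_of_far [FiniteDimensional ℝ E] {X : E → E} {R : ℝ} {e : E} (hX : ContDiff ℝ ∞ X)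
    (he : ∀ x, R ≤ ‖x‖ → X x = e) : ∃ K : ℝ≥0, LipschitzWith K X := by
  have : ProperSpace E := FiniteDimensional.proper ℝ E
  have hc : Continuous (fderiv ℝ X) := hX.continuous_fderiv (by simp)
  obtain ⟨C, hC⟩ := (isCompact_closedBall (0 : E) R).exists_bound_of_continuousOn hc.continuousOn
  refine ⟨(max C 0).toNNReal, lipschitzWith_of_nnnorm_fderiv_le (𝕜 := ℝ)
    (hX.differentiable (by simp)) fun x => ?_⟩
  rw [← NNReal.coe_le_coe, coe_nnnorm, Real.coe_toNNReal _ (le_max_right _ _)]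
  by_cases hx : ‖x‖ ≤ R
  · exact (hC x (by simpa using hx)).trans (le_max_left _ _)
  · have h1 : X =ᶠ[𝓝 x] fun _ => e := by
      have : ∀ᶠ y in 𝓝 x, R < ‖y‖ :=
        continuous_norm.continuousAt.eventually (lt_mem_nhds (not_le.1 hx))
      filter_upwards [this] with y hy using he y hy.le
    rw [h1.fderiv_eq]
    simp

theorem unique_sol {X : E → E} {K : ℝ≥0} (hK : LipschitzWith K X) {u v : ℝ → E}
    (hu : ∀ t, HasDerivAt u (X (u t)) t) (hv : ∀ t, HasDerivAt v (X (v t)) t) (h0 : u 0 = v 0) :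
    u = v :=
  ODE_solution_unique_univ (v := fun _ => X) (s := fun _ => univ) (K := K) (t₀ := 0)
    (fun _ => hK.lipschitzOnWith) (fun t => ⟨hu t, mem_univ _⟩) (fun t => ⟨hv t, mem_univ _⟩) h0

theorem group_law {X : E → E} {K : ℝ≥0} (hK : LipschitzWith K X) {Φ : ℝ → E → E}
    (h0 : ∀ x, Φ 0 x = x) (hΦ : ∀ t x, HasDerivAt (fun s => Φ s x) (X (Φ t x)) t) (s t : ℝ)
    (x : E) : Φ (s + t) x = Φ s (Φ t x) := by
  have h := unique_sol hK (u := fun s => Φ (s + t) x) (v := fun s => Φ s (Φ t x))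
    (fun s => (hΦ (s + t) x).comp_add_const s t) (fun s => hΦ s _) (by simp [h0])
  exact congrFun h s

theorem dist_flow {X : E → E} {M : ℝ} (hM : ∀ x, ‖X x‖ ≤ M) {Φ : ℝ → E → E}
    (h0 : ∀ x, Φ 0 x = x) (hΦ : ∀ t x, HasDerivAt (fun s => Φ s x) (X (Φ t x)) t) (t : ℝ)
    (x : E) : ‖Φ t x - x‖ ≤ M * |t| := by
  have h := Convex.norm_image_sub_le_of_norm_hasDerivWithin_le (f := fun s => Φ s x)
    (f' := fun s => X (Φ s x)) (s := univ) (C := M) (x := (0 : ℝ)) (y := t)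
    (fun s _ => (hΦ s x).hasDerivWithinAt) (fun s _ => hM _) convex_univ (mem_univ _) (mem_univ _)
  simpa [h0] using h

/-! ### integration -/

/-- the constant functions -/
noncomputable def cst : E →L[ℝ] C(unitInterval, E) :=
  LinearMap.mkContinuous
    { toFun := fun x => ContinuousMap.const _ x
      map_add' := fun x y => by ext s; rfl
      map_smul' := fun c x => by ext s; rfl } 1 (fun x => by
    rw [one_mul, ContinuousMap.norm_le _ (norm_nonneg _)]
    intro s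
    exact le_rfl)

@[simp] theorem cst_apply (x : E) (s : unitInterval) : cst x s = x := rfl

/-- the primitive -/
noncomputable def prim (β : C(unitInterval, E)) : C(unitInterval, E) :=
  ⟨fun s => ∫ t in (0 : ℝ)..s, Set.IccExtend (zero_le_one' ℝ) β t,
    (intervalIntegral.continuous_primitive
      (fun a b => (β.continuous.Icc_extend').intervalIntegrable a b) 0).comp
      continuous_subtype_val⟩

theorem prim_apply (β : C(unitInterval, E)) (s : unitInterval) :
    prim β s = ∫ t in (0 : ℝ)..s, Set.IccExtend (zero_le_one' ℝ) β t := rfl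

/-- integration -/
noncomputable def J : C(unitInterval, E) →L[ℝ] C(unitInterval, E) :=
  LinearMap.mkContinuous
    { toFun := prim
      map_add' := fun β γ => by
        ext s
        rw [ContinuousMap.add_apply, prim_apply, prim_apply, prim_apply,
          ← intervalIntegral.integral_add ((β.continuous.Icc_extend').intervalIntegrable _ _)
            ((γ.continuous.Icc_extend').intervalIntegrable _ _)]
        rfl
      map_smul' := fun c β => by
        ext s
        rw [ContinuousMap.smul_apply, prim_apply, prim_apply, RingHom.id_apply,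
          ← intervalIntegral.integral_smul]
        rfl } 1 (fun β => by
    rw [one_mul, ContinuousMap.norm_le _ (norm_nonneg _)]
    intro s
    show ‖prim β s‖ ≤ ‖β‖
    rw [prim_apply]
    have h := intervalIntegral.norm_integral_le_of_norm_le_const (a := (0 : ℝ)) (b := s)
      (f := Set.IccExtend (zero_le_one' ℝ) β) (C := ‖β‖) (fun t _ => β.norm_coe_le_norm _)
    refine h.trans ?_
    have h1 : |(s : ℝ) - 0| ≤ 1 := by
      rw [sub_zero, abs_of_nonneg s.2.1]
      exact s.2.2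
    calc ‖β‖ * |(s : ℝ) - 0| ≤ ‖β‖ * 1 := mul_le_mul_of_nonneg_left h1 (norm_nonneg _)
      _ = ‖β‖ := mul_one _)

theorem J_apply (β : C(unitInterval, E)) (s : unitInterval) :
    J β s = ∫ t in (0 : ℝ)..s, Set.IccExtend (zero_le_one' ℝ) β t := rfl

/-- the operator -/
noncomputable def Nem (X : E → E) (hX : Continuous X) (α : C(unitInterval, E)) :
    C(unitInterval, E) := (⟨X, hX⟩ : C(E, E)).comp α

@[simp] theorem Nem_apply (X : E → E) (hX : Continuous X) (α : C(unitInterval, E))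
    (s : unitInterval) : Nem X hX α s = X (α s) := rfl

/-- the map of the implicit equation -/
noncomputable def GG (X : E → E) (hX : Continuous X) (P : (ℝ × E) × C(unitInterval, E)) :
    (ℝ × E) × C(unitInterval, E) :=
  (P.1, P.2 - cst P.1.2 - P.1.1 • J (Nem X hX P.2))

theorem GG_contDiff (hNM : StmtNM) {X : E → E} (hX : ContDiff ℝ ∞ X) :
    ContDiff ℝ ∞ (GG X hX.continuous) := by
  have hN : ContDiff ℝ ∞ (Nem X hX.continuous) := hNM E E X hX
  exact contDiff_fst.prodMk ((contDiff_snd.sub (cst.contDiff.comp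
    (contDiff_snd.comp contDiff_fst))).sub ((contDiff_fst.comp contDiff_fst).smul
    (J.contDiff.comp (hN.comp contDiff_snd))))

/-- the derivative of `GG` -/
noncomputable def GG' (c : C(unitInterval, E)) :
    ((ℝ × E) × C(unitInterval, E)) ≃L[ℝ] ((ℝ × E) × C(unitInterval, E)) :=
  ContinuousLinearEquiv.skewProd (ContinuousLinearEquiv.refl ℝ (ℝ × E))
    (ContinuousLinearEquiv.refl ℝ C(unitInterval, E))
    (-(cst.comp (ContinuousLinearMap.snd ℝ ℝ E)) - (ContinuousLinearMap.fst ℝ ℝ E).smulRight c)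

theorem GG_hasFDerivAt (hNM : StmtNM) {X : E → E} (hX : ContDiff ℝ ∞ X) (x₀ : E) :
    HasFDerivAt (GG X hX.continuous)
      (GG' (J (Nem X hX.continuous (cst x₀))) :
        ((ℝ × E) × C(unitInterval, E)) →L[ℝ] ((ℝ × E) × C(unitInterval, E)))
      ((0, x₀), cst x₀) := by
  have hN : ContDiff ℝ ∞ (Nem X hX.continuous) := hNM E E X hX
  have hJN : DifferentiableAt ℝ (fun P : (ℝ × E) × C(unitInterval, E) =>
      J (Nem X hX.continuous P.2)) ((0, x₀), cst x₀) :=
    ((J.contDiff.comp (hN.comp contDiff_snd)).differentiable (by simp)).differentiableAt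
  have h1 : HasFDerivAt (fun P : (ℝ × E) × C(unitInterval, E) => P.1)
      (ContinuousLinearMap.fst ℝ (ℝ × E) C(unitInterval, E)) ((0, x₀), cst x₀) := hasFDerivAt_fst
  have h2 : HasFDerivAt (fun P : (ℝ × E) × C(unitInterval, E) => P.2)
      (ContinuousLinearMap.snd ℝ (ℝ × E) C(unitInterval, E)) ((0, x₀), cst x₀) := hasFDerivAt_snd
  have h3 : HasFDerivAt (fun P : (ℝ × E) × C(unitInterval, E) => P.1.1)
      ((ContinuousLinearMap.fst ℝ ℝ E).comp
        (ContinuousLinearMap.fst ℝ (ℝ × E) C(unitInterval, E))) ((0, x₀), cst x₀) :=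
    ((ContinuousLinearMap.fst ℝ ℝ E).comp
      (ContinuousLinearMap.fst ℝ (ℝ × E) C(unitInterval, E))).hasFDerivAt
  have h4 : HasFDerivAt (fun P : (ℝ × E) × C(unitInterval, E) => cst P.1.2)
      (cst.comp ((ContinuousLinearMap.snd ℝ ℝ E).comp
        (ContinuousLinearMap.fst ℝ (ℝ × E) C(unitInterval, E)))) ((0, x₀), cst x₀) :=
    (cst.comp ((ContinuousLinearMap.snd ℝ ℝ E).comp
      (ContinuousLinearMap.fst ℝ (ℝ × E) C(unitInterval, E)))).hasFDerivAt
  have h5 := h1.prodMk ((h2.sub h4).sub (h3.smul hJN.hasFDerivAt))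
  refine h5.congr_fderiv ?_
  refine ContinuousLinearMap.ext fun P => ?_
  obtain ⟨⟨δ, x⟩, β⟩ := P
  refine Prod.ext rfl ?_
  simp [GG', sub_eq_add_neg]
  abel

/-- the path -/
noncomputable def path (Φ : ℝ → E → E) (hc : ∀ x, Continuous fun s => Φ s x) (p : ℝ × E) :
    C(unitInterval, E) :=
  ⟨fun s => Φ ((s : ℝ) * p.1) p.2,
    (hc p.2).comp (continuous_subtype_val.mul continuous_const)⟩

theorem path_apply (Φ : ℝ → E → E) (hc : ∀ x, Continuous fun s => Φ s x) (p : ℝ × E)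
    (s : unitInterval) : path Φ hc p s = Φ ((s : ℝ) * p.1) p.2 := rfl

theorem GG_path [CompleteSpace E] {X : E → E} (hX : Continuous X) {Φ : ℝ → E → E}
    (h0 : ∀ x, Φ 0 x = x) (hΦ : ∀ t x, HasDerivAt (fun s => Φ s x) (X (Φ t x)) t)
    (hc : ∀ x, Continuous fun s => Φ s x) (p : ℝ × E) :
    GG X hX (p, path Φ hc p) = (p, 0) := by
  refine Prod.ext rfl ?_
  ext s
  show Φ ((s : ℝ) * p.1) p.2 - p.2 - p.1 • J (Nem X hX (path Φ hc p)) s = 0
  rw [J_apply, ← intervalIntegral.integral_smul]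
  have hd : ∀ t : ℝ, HasDerivAt (fun t => Φ (t * p.1) p.2) (p.1 • X (Φ (t * p.1) p.2)) t := by
    intro t
    have h1 : HasDerivAt (fun t : ℝ => t * p.1) p.1 t := by
      simpa using (hasDerivAt_id t).mul_const p.1
    exact (hΦ (t * p.1) p.2).scomp t h1
  have hcont : Continuous fun t : ℝ => p.1 • X (Φ (t * p.1) p.2) :=
    (hX.comp ((hc p.2).comp (continuous_id.mul continuous_const))).const_smul p.1
  have h2 := intervalIntegral.integral_eq_sub_of_hasDerivAt (a := (0 : ℝ)) (b := s)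
    (fun t _ => hd t) (hcont.intervalIntegrable _ _)
  have h3 : ∫ t in (0 : ℝ)..s, p.1 • Set.IccExtend (zero_le_one' ℝ) (Nem X hX (path Φ hc p)) t =
      ∫ t in (0 : ℝ)..s, p.1 • X (Φ (t * p.1) p.2) := by
    refine intervalIntegral.integral_congr fun t ht => ?_
    rw [Set.uIcc_of_le s.2.1] at ht
    have ht1 : t ∈ Set.Icc (0 : ℝ) 1 := ⟨ht.1, ht.2.trans s.2.2⟩
    show p.1 • Set.IccExtend (zero_le_one' ℝ) (Nem X hX (path Φ hc p)) t = _
    rw [Set.IccExtend_of_mem _ _ ht1]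
    rfl
  rw [h3, h2]
  simp [h0]

theorem path_tendsto {X : E → E} {M : ℝ} (hM0 : 0 ≤ M) (hM : ∀ x, ‖X x‖ ≤ M) {Φ : ℝ → E → E}
    (h0 : ∀ x, Φ 0 x = x) (hΦ : ∀ t x, HasDerivAt (fun s => Φ s x) (X (Φ t x)) t)
    (hc : ∀ x, Continuous fun s => Φ s x) (x₀ : E) :
    Tendsto (fun p : ℝ × E => path Φ hc p) (𝓝 ((0 : ℝ), x₀)) (𝓝 (cst x₀)) := by
  rw [tendsto_iff_norm_sub_tendsto_zero]
  have h1 : Tendsto (fun p : ℝ × E => M * |p.1| + ‖p.2 - x₀‖) (𝓝 ((0 : ℝ), x₀)) (𝓝 0) := by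
    have : Continuous fun p : ℝ × E => M * |p.1| + ‖p.2 - x₀‖ := by fun_prop
    simpa using this.tendsto ((0 : ℝ), x₀)
  refine squeeze_zero (fun _ => norm_nonneg _) (fun p => ?_) h1
  rw [ContinuousMap.norm_le _ (by positivity)]
  intro s
  show ‖Φ ((s : ℝ) * p.1) p.2 - x₀‖ ≤ _
  have h2 := dist_flow hM h0 hΦ ((s : ℝ) * p.1) p.2
  have h3 : |(s : ℝ) * p.1| ≤ |p.1| := by
    rw [abs_mul, abs_of_nonneg s.2.1]
    exact mul_le_of_le_one_left (abs_nonneg _) s.2.2
  calc ‖Φ ((s : ℝ) * p.1) p.2 - x₀‖ = ‖(Φ ((s : ℝ) * p.1) p.2 - p.2) + (p.2 - x₀)‖ := by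
        congr 1
        abel
    _ ≤ ‖Φ ((s : ℝ) * p.1) p.2 - p.2‖ + ‖p.2 - x₀‖ := norm_add_le _ _
    _ ≤ M * |(s : ℝ) * p.1| + ‖p.2 - x₀‖ := by gcongr
    _ ≤ M * |p.1| + ‖p.2 - x₀‖ := by gcongr

/-- the flow is smooth at `(0, x₀)` -/
theorem smooth_zero [FiniteDimensional ℝ E] (hNM : StmtNM) {X : E → E} (hX : ContDiff ℝ ∞ X)
    {M : ℝ} (hM0 : 0 ≤ M) (hM : ∀ x, ‖X x‖ ≤ M) {Φ : ℝ → E → E} (h0 : ∀ x, Φ 0 x = x)
    (hΦ : ∀ t x, HasDerivAt (fun s => Φ s x) (X (Φ t x)) t) (x₀ : E) :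
    ContDiffAt ℝ ∞ (fun p : ℝ × E => Φ p.1 p.2) ((0 : ℝ), x₀) := by
  have : CompleteSpace E := FiniteDimensional.complete ℝ E
  have hc : ∀ x, Continuous fun s => Φ s x := fun x =>
    continuous_iff_continuousAt.2 fun t => (hΦ t x).continuousAt
  have hG : ContDiffAt ℝ ∞ (GG X hX.continuous) ((0, x₀), cst x₀) :=
    (GG_contDiff hNM hX).contDiffAt
  have hG' := GG_hasFDerivAt hNM hX x₀
  have hne : (∞ : WithTop ℕ∞) ≠ 0 := by simp
  have hs := hG.hasStrictFDerivAt' hG' hne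
  have hinv : ContDiffAt ℝ ∞ (hG.localInverse hG' hne) (GG X hX.continuous ((0, x₀), cst x₀)) :=
    hG.to_localInverse hG' hne
  have hG0 : GG X hX.continuous ((0, x₀), cst x₀) = (((0 : ℝ), x₀), 0) := by
    refine Prod.ext rfl ?_
    ext s
    simp [GG]
  rw [hG0] at hinv
  have hev := hs.eventually_left_inverse
  have ht : Tendsto (fun p : ℝ × E => (p, path Φ hc p)) (𝓝 ((0 : ℝ), x₀))
      (𝓝 (((0 : ℝ), x₀), cst x₀)) :=
    tendsto_id.prodMk_nhds (path_tendsto hM0 hM h0 hΦ hc x₀)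
  have hev2 := ht.eventually hev
  let ev1 : C(unitInterval, E) →L[ℝ] E := ContinuousMap.evalCLM ℝ (1 : unitInterval)
  have hcomp : ContDiffAt ℝ ∞ (fun p : ℝ × E => ev1 (hG.localInverse hG' hne (p, 0)).2)
      ((0 : ℝ), x₀) := by
    refine ev1.contDiff.contDiffAt.comp _ (contDiff_snd.contDiffAt.comp _ ?_)
    refine ContDiffAt.comp (g := hG.localInverse hG' hne)
      (f := fun p : ℝ × E => (p, (0 : C(unitInterval, E)))) _ hinv ?_
    exact (contDiff_id.prodMk contDiff_const).contDiffAt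
  refine hcomp.congr_of_eventuallyEq ?_
  filter_upwards [hev2] with p hp
  rw [GG_path hX.continuous h0 hΦ hc p] at hp
  have h1 : hG.localInverse hG' hne (p, 0) = (p, path Φ hc p) := hp
  rw [h1]
  show Φ p.1 p.2 = path Φ hc p 1
  rw [path_apply]
  simp

theorem smooth_all [FiniteDimensional ℝ E] (hNM : StmtNM) {X : E → E} (hX : ContDiff ℝ ∞ X)
    {R : ℝ} {e : E} (he : ∀ x, R ≤ ‖x‖ → X x = e) {Φ : ℝ → E → E} (h0 : ∀ x, Φ 0 x = x)
    (hΦ : ∀ t x, HasDerivAt (fun s => Φ s x) (X (Φ t x)) t) :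
    ContDiff ℝ ∞ (fun p : ℝ × E => Φ p.1 p.2) := by
  obtain ⟨M, hM0, hM⟩ := bdd_of_far hX.continuous he
  obtain ⟨K, hK⟩ := lip_of_far hX he
  have hc : ∀ x, Continuous fun s => Φ s x := fun x =>
    continuous_iff_continuousAt.2 fun t => (hΦ t x).continuousAt
  rw [contDiff_infty]
  intro n
  rw [contDiff_iff_contDiffAt]
  rintro ⟨t₁, x₀⟩
  let T : Set ℝ := {t | ContDiffAt ℝ n (fun p : ℝ × E => Φ p.1 p.2) (t, x₀)}
  have hz : ∀ y : E, ContDiffAt ℝ n (fun p : ℝ × E => Φ p.1 p.2) ((0 : ℝ), y) := fun y =>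
    (smooth_zero hNM hX hM0 hM h0 hΦ y).of_le (by exact_mod_cast le_top)
  have hT0 : (0 : ℝ) ∈ T := hz x₀
  have hne : ((n : ℕ) : WithTop ℕ∞) ≠ ∞ := by
    intro h
    have : ((n : ℕ∞) : WithTop ℕ∞) = ((⊤ : ℕ∞) : WithTop ℕ∞) := h
    rw [WithTop.coe_inj] at this
    exact ENat.natCast_ne_top n this
  have hopen : IsOpen T := by
    rw [isOpen_iff_mem_nhds]
    intro t ht
    have ht' : ContDiffAt ℝ n (fun p : ℝ × E => Φ p.1 p.2) (t, x₀) := ht
    have h1 := ht'.eventually hne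
    have h2 : Tendsto (fun t : ℝ => (t, x₀)) (𝓝 t) (𝓝 (t, x₀)) :=
      tendsto_id.prodMk_nhds tendsto_const_nhds
    exact h2.eventually h1
  have hclosed : IsClosed T := by
    refine isClosed_of_closure_subset fun ts hts => ?_
    have h1 := ContDiffAt.eventually (hz (Φ ts x₀)) hne
    have h2 : Tendsto (fun t : ℝ => (ts - t, Φ t x₀)) (𝓝 ts) (𝓝 ((0 : ℝ), Φ ts x₀)) := by
      have : Continuous fun t : ℝ => (ts - t, Φ t x₀) :=
        (continuous_const.sub continuous_id).prodMk (hc x₀)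
      simpa using this.tendsto ts
    have h3 := h2.eventually h1
    obtain ⟨t, ht1, ht2⟩ := (mem_closure_iff_frequently.1 hts |>.and_eventually h3).exists
    have h4 : (fun p : ℝ × E => Φ p.1 p.2) =
        (fun p : ℝ × E => Φ p.1 p.2) ∘ (fun p : ℝ × E => (p.1 - t, Φ t p.2)) := by
      funext p
      show Φ p.1 p.2 = Φ (p.1 - t) (Φ t p.2)
      rw [← group_law hK h0 hΦ, sub_add_cancel]
    show ContDiffAt ℝ n (fun p : ℝ × E => Φ p.1 p.2) (ts, x₀)
    rw [h4]
    refine ContDiffAt.comp _ ht2 ?_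
    refine ContDiffAt.prodMk (contDiff_fst.sub contDiff_const).contDiffAt ?_
    have h5 : ContDiffAt ℝ n (fun p : ℝ × E => (t, p.2)) (ts, x₀) :=
      (contDiff_const.prodMk contDiff_snd).contDiffAt
    exact ContDiffAt.comp (g := fun p : ℝ × E => Φ p.1 p.2) (f := fun p : ℝ × E => (t, p.2))
      (ts, x₀) ht1 h5
  have huniv : T = univ := IsClopen.eq_univ ⟨hclosed, hopen⟩ ⟨0, hT0⟩
  have : t₁ ∈ T := by
    rw [huniv]
    exact mem_univ _
  exact this

end

theorem sm_ (hNM : StmtNM) : StmtSM := by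
  intro E _ _ _ X R e Φ hX he h0 hΦ
  exact ⟨smooth_all hNM hX he h0 hΦ, h0, hΦ⟩

end Pool.Agent.Helper77.SY
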